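import Pool.Agent.Lib.MP_28303a_al.NT.A.Extr
import Pool.Agent.Lib.MP_28303a_al.NT.H80.Perf
import Pool.Agent.Lib.MP_28303a_al.NT.H74.Den
import Pool.Agent.Lib.MP_28303a_al.NK.H50.Ext
import Pool.Agent.Lib.MP_28303a_al.NK.H78.Lreg
import Pool.Agent.Lib.MP_28303a_al.WR.H12.Preg

/-! # Adapters -/

set_option autoImplicit false
set_option linter.unusedSectionVars false
set_option linter.unusedVariables false

namespace Pool.Agent.NegK.NT

universe u

open CategoryTheory Limits Pretriangulated

theorem perS : PerStatement.{u} := fun k _ Γ _ B _ P =>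
  ⟨fun X n h => per_shift h n, fun T hT h1 h3 => per2 (f := T.mor₁) (g := T.mor₂) (w := T.mor₃)
    hT h1 h3⟩

theorem denS : DenStatement.{u} := by
  intro k _ Γ _ B _ P X Y hX φ
  obtain ⟨n, f, hf⟩ := (H74.cd k P X Y hX).1 φ
  exact ⟨n, f, hf.trans ((tn (n : ℤ)).naturality φ)⟩

theorem perlS : PerlStatement.{u} := fun k _ Γ _ B _ P X hX => per_bc _ hX

theorem regP (k : Type u) [Ring k] (hk : RegularRing k) : RegularRing (Polynomial k) :=
  WR.H12p.preg k hk

theorem regL (k : Type u) [Ring k] (hk : RegularRing k) : RegularRing (LaurentPolynomial k) :=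
  H78.lreg H50.ext k hk

/-- The base case. -/
theorem base' (hHaa : HaaStatement.{u}) (hTac : TacStatement.{u}) (hIs : IslocStatement.{u})
    (hZh : ZhStatement.{u}) (hIm : ImlocStatement.{u}) (hTi : TacimStatement.{u})
    (hRes : ResnStatement.{u}) (hUni : UnilocStatement.{u})
    (hTop : TopStatement.{u}) (hIso : IsoStatement.{u})
    (hDev : DevStatement.{u}) (hCon : ConexStatement.{u}) (hReg : RegStatement.{u})
    (Γ : Type u) [Group Γ] (T : Sys Γ) (D : T.Tr) (hF : T.Fin') (hRet : T.RET) : T.BASE :=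
  base hHaa hTac hIs hZh hIm hTi denS hRes hUni hTop hIso perlS hDev hCon hReg regP regL
    (fun k _ Γ _ T S J X hX => Sys.pj_zero hX) Γ T D hF hRet

end Pool.Agent.NegK.NT
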