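import Pool.Agent.Lib.MP_28303a_al.NT.Res
import Mathlib.Algebra.Category.ModuleCat.Abelian
import Mathlib.Algebra.Category.ModuleCat.Colimits
import Mathlib.CategoryTheory.Abelian.FunctorCategory
import Mathlib.Algebra.Homology.HomotopyCategory.HomologicalFunctor
import Mathlib.Algebra.Homology.HomotopyCategory.Triangulated

/-! # Functors on the category of boxes -/

set_option autoImplicit false
set_option linter.unusedSectionVars false
set_option linter.unusedVariables false

namespace Pool.Agent.NegK.NT

universe u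

open CategoryTheory

/-- The category of locations: `U ⟶ V` is the set of all `g` with `U ≤ g V`. -/
structure Bx {Γ : Type u} [Group Γ] {B : Type u} [MulAction Γ B] (P : Pre Γ B) : Type u where
  of ::
  pt : B

section

variable {Γ : Type u} [Group Γ] {B : Type u} [MulAction Γ B] {P : Pre Γ B}

namespace Bx

instance : Category.{u} (Bx P) where
  Hom U V := {g : Γ // P.le U.pt (g • V.pt)}
  id U := ⟨1, by
    rw [one_smul]
    exact P.refl _⟩
  comp f h := ⟨f.1 * h.1, by
    rw [mul_smul]
    exact P.trans f.2 (P.smul _ h.2)⟩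
  id_comp f := Subtype.ext (one_mul _)
  comp_id f := Subtype.ext (mul_one _)
  assoc f h l := Subtype.ext (mul_assoc _ _ _)

/-- The group element of a morphism. -/
def el {U V : Bx P} (f : U ⟶ V) : Γ := f.1

theorem le_el {U V : Bx P} (f : U ⟶ V) : P.le U.pt (el f • V.pt) := f.2

/-- The morphism of a group element. -/
def mk' {U V : Bx P} (g : Γ) (h : P.le U.pt (g • V.pt)) : U ⟶ V := ⟨g, h⟩

@[simp] theorem el_mk' {U V : Bx P} (g : Γ) (h : P.le U.pt (g • V.pt)) : el (mk' g h) = g := rfl

@[simp] theorem el_id (U : Bx P) : el (𝟙 U) = 1 := rfl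

@[simp] theorem el_comp {U V W : Bx P} (f : U ⟶ V) (h : V ⟶ W) : el (f ≫ h) = el f * el h := rfl

@[ext] theorem hom_ext {U V : Bx P} {f h : U ⟶ V} (H : el f = el h) : f = h := Subtype.ext H

/-- The morphism of an inequality. -/
def ofLe {U V : B} (h : P.le U V) : (of U : Bx P) ⟶ of V := ⟨1, by
  rw [one_smul]
  exact h⟩

@[simp] theorem el_ofLe {U V : B} (h : P.le U V) : el (ofLe h) = 1 := rfl

end Bx

end

/-- Functors on the category of locations. -/
abbrev Fn (k : Type u) [Ring k] {Γ : Type u} [Group Γ] {B : Type u} [MulAction Γ B]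
    (P : Pre Γ B) := (Bx P)ᵒᵖ ⥤ ModuleCat.{u} k

section

variable {k : Type u} [Ring k] {Γ : Type u} [Group Γ] {B : Type u} [MulAction Γ B] {P : Pre Γ B}

namespace Loc

/-- The elements of `A` which live on `U`. -/
def evS (A : Loc k P) (U : B) : Submodule k A.F where
  carrier := {x | ∀ i g, (x i).coeff g ≠ 0 → P.le U (g • A.loc i)}
  zero_mem' := fun i g hg => absurd rfl hg
  add_mem' := by
    intro x y hx hy i g hg
    by_contra hc
    refine hg ?_
    rw [Finsupp.add_apply, MonoidAlgebra.coeff_add, Finsupp.add_apply,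
      not_not.1 fun h1 => hc (hx i g h1), not_not.1 fun h1 => hc (hy i g h1), add_zero]
  smul_mem' := by
    intro c x hx i g hg
    refine hx i g fun h1 => hg ?_
    rw [Finsupp.smul_apply, MonoidAlgebra.coeff_smul, Finsupp.smul_apply, h1, smul_zero]

theorem mem_evS (A : Loc k P) (U : B) (x : A.F) :
    x ∈ A.evS U ↔ ∀ i g, (x i).coeff g ≠ 0 → P.le U (g • A.loc i) := Iff.rfl

theorem single_mem (A : Loc k P) (i : A.ι) :
    (Finsupp.single i (1 : MonoidAlgebra k Γ)) ∈ A.evS (A.loc i) := by
  classical
  intro j g hg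
  rw [Finsupp.single_apply] at hg
  split_ifs at hg with h1
  · subst h1
    rw [MonoidAlgebra.one_def, MonoidAlgebra.coeff_single, Finsupp.single_apply] at hg
    split_ifs at hg with h2
    · rw [← h2, one_smul]
      exact P.refl _
    · exact absurd rfl hg
  · exact absurd rfl hg

theorem smul_mem_evS (A : Loc k P) {U V : B} (g : Γ) (h : P.le U (g • V)) {x : A.F}
    (hx : x ∈ A.evS V) : (MonoidAlgebra.single g (1 : k)) • x ∈ A.evS U := by
  intro i l hl
  rw [Finsupp.smul_apply, smul_eq_mul, MonoidAlgebra.coeff_single_mul_apply, one_mul] at hl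
  have h1 := P.smul g (hx i _ hl)
  rw [← mul_smul, mul_inv_cancel_left] at h1
  exact P.trans h h1

theorem smul_one_single (c : k) (b : MonoidAlgebra k Γ) :
    c • b = MonoidAlgebra.single 1 c * b := by
  ext g
  rw [MonoidAlgebra.coeff_smul, Finsupp.smul_apply, MonoidAlgebra.coeff_single_mul_apply, inv_one,
    one_mul, smul_eq_mul]

theorem smul_one_single' {ι : Type u} (c : k) (x : ι →₀ MonoidAlgebra k Γ) :
    c • x = (MonoidAlgebra.single (1 : Γ) c) • x := by
  ext1 i
  rw [Finsupp.smul_apply, Finsupp.smul_apply, smul_one_single, smul_eq_mul]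

theorem single_smul_comm {ι : Type u} (c : k) (g : Γ) (x : ι →₀ MonoidAlgebra k Γ) :
    (MonoidAlgebra.single g (1 : k)) • c • x = c • (MonoidAlgebra.single g (1 : k)) • x := by
  rw [smul_one_single', smul_one_single', smul_smul, smul_smul, MonoidAlgebra.single_mul_single,
    MonoidAlgebra.single_mul_single, mul_one, one_mul, one_mul, mul_one]

theorem lin_smul {A A' : Loc k P} (f : A ⟶ A') (c : k) (x : A.F) :
    lin f (c • x) = c • lin f x := by
  rw [smul_one_single', map_smul, ← smul_one_single']

theorem lin_mem {A A' : Loc k P} (f : A ⟶ A') {U : B} {x : A.F} (hx : x ∈ A.evS U) :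
    lin f x ∈ A'.evS U := by
  classical
  intro l g hg
  rw [map_apply, Finsupp.sum] at hg
  have : ∃ j, (x j * lin f (Finsupp.single j 1) l).coeff g ≠ 0 := by
    by_contra hc
    push Not at hc
    refine hg ?_
    rw [MonoidAlgebra.coeff_sum, Finset.sum_apply']
    exact Finset.sum_eq_zero fun j _ => hc j
  obtain ⟨j, hj⟩ := this
  obtain ⟨g₁, g₂, h1, h2, rfl⟩ := exists_of_mul hj
  have h3 := P.smul g₁ (spt_lin f j l g₂ h2)
  rw [← mul_smul] at h3
  exact P.trans (hx j g₁ h1) h3

/-- The functor of an object. -/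
noncomputable def evObj (A : Loc k P) : Fn k P where
  obj U := ModuleCat.of k (A.evS U.unop.pt)
  map {U V} f := ModuleCat.ofHom
    { toFun := fun x => ⟨(MonoidAlgebra.single (Bx.el f.unop) (1 : k)) • x.1,
        A.smul_mem_evS _ (Bx.le_el f.unop) x.2⟩
      map_add' := fun x y => Subtype.ext (smul_add _ _ _)
      map_smul' := fun c x => Subtype.ext (single_smul_comm _ _ _) }
  map_id U := by
    refine ModuleCat.hom_ext (LinearMap.ext fun x => Subtype.ext ?_)
    change (MonoidAlgebra.single (1 : Γ) (1 : k)) • x.1 = x.1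
    rw [← MonoidAlgebra.one_def, one_smul]
  map_comp {U V W} f g := by
    refine ModuleCat.hom_ext (LinearMap.ext fun x => Subtype.ext ?_)
    change (MonoidAlgebra.single (Bx.el g.unop * Bx.el f.unop) (1 : k)) • x.1 =
      (MonoidAlgebra.single (Bx.el g.unop) (1 : k)) •
        (MonoidAlgebra.single (Bx.el f.unop) (1 : k)) • x.1
    rw [smul_smul, MonoidAlgebra.single_mul_single, one_mul]

/-- The functor `ev`. -/
noncomputable def ev : Loc k P ⥤ Fn k P where
  obj A := evObj A
  map {A A'} f :=
    { app := fun U => ModuleCat.ofHom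
        { toFun := fun x => ⟨lin f x.1, lin_mem f x.2⟩
          map_add' := fun x y => Subtype.ext (map_add _ _ _)
          map_smul' := fun c x => Subtype.ext (lin_smul f c _) }
      naturality := fun U V g =>
        ModuleCat.hom_ext (LinearMap.ext fun x => Subtype.ext (map_smul (lin f) _ _)) }
  map_id A := rfl
  map_comp f g := rfl

instance : (ev (k := k) (P := P)).Additive where
  map_add := rfl

/-- The value of `ev`. -/
theorem ev_val {A A' : Loc k P} (f : A ⟶ A') (U : (Bx P)ᵒᵖ) (x : A.evS U.unop.pt) :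
    (((ev.map f).app U).hom x : A'.evS U.unop.pt).1 = lin f x.1 := rfl

end Loc

end

end Pool.Agent.NegK.NT
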