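import Pool.Agent.Lib.MP_28303a_al.NT.Sys
import Pool.Agent.Lib.MP_28303a_al.NT.A.Cat
import Pool.Agent.Lib.MP_28303a_al.TW.Graph

/-! # The functor side: definitions and statements of the modules -/

set_option autoImplicit false
set_option linter.unusedSectionVars false
set_option linter.unusedVariables false

namespace Pool.Agent.NegK.NT

universe u

open CategoryTheory Limits

/-! ### Homology functors -/

section

variable (k : Type u) [Ring k] {Γ : Type u} [Group Γ] {B : Type u} [MulAction Γ B] (P : Pre Γ B)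

/-- The homology functors `H^n : KK k P ⥤ Fn k P`. -/
noncomputable abbrev hq (n : ℤ) : KK k P ⥤ Fn k P :=
  (Loc.ev (k := k) (P := P)).mapHomotopyCategory (ComplexShape.up ℤ) ⋙
    HomotopyCategory.homologyFunctor (Fn k P) (ComplexShape.up ℤ) n

/-- Restriction of the scalars of functors from `k[t, t⁻¹]` to `k[t]`. -/
noncomputable abbrev rsF : Fn (LaurentPolynomial k) P ⥤ Fn (Polynomial k) P :=
  (Functor.whiskeringRight (Bx P)ᵒᵖ (ModuleCat.{u} (LaurentPolynomial k))
    (ModuleCat.{u} (Polynomial k))).obj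
    (ModuleCat.restrictScalars (Polynomial.toLaurent : Polynomial k →+* LaurentPolynomial k))

variable {k P}

/-- `f` is the localization at `t`. -/
def IsLoc {N : Fn (Polynomial k) P} {M : Fn (LaurentPolynomial k) P} (f : N ⟶ (rsF k P).obj M) :
    Prop :=
  ∀ U : (Bx P)ᵒᵖ,
    (∀ x : N.obj U, (f.app U).hom x = 0 → ∃ n : ℕ, (Polynomial.X ^ n : Polynomial k) • x = 0) ∧
    (∀ y : M.obj U, ∃ (n : ℕ) (x : N.obj U),
      ((f.app U).hom x : M.obj U) = (LaurentPolynomial.T (n : ℤ) : LaurentPolynomial k) • y)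

/-- Good classes of functors: closed under kernels, cokernels and extensions, containing the
functors of finite located modules, all of them with finite resolutions by such functors. -/
structure RegCls (AA : Fn k P → Prop) : Prop where
  iso : ∀ M N : Fn k P, Nonempty (M ≅ N) → AA M → AA N
  ker : ∀ (M N : Fn k P) (f : M ⟶ N), AA M → AA N → AA (kernel f)
  coker : ∀ (M N : Fn k P) (f : M ⟶ N), AA M → AA N → AA (cokernel f)
  fin : ∀ A : Loc k P, Finite A.ι → AA (Loc.ev.obj A)
  res : ∀ M : Fn k P, AA M → ∃ R : KK k P, Per R ∧ Nonempty ((hq k P 0).obj R ≅ M) ∧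
    ∀ n : ℤ, n ≠ 0 → IsZero ((hq k P n).obj R)

end

/-! ### Trees -/

section

variable {Γ : Type u} [Group Γ] (T : Sys Γ)

/-- The vertices and the edges of the trees among the labels, and contractions of the labels. -/
structure Sys.Tr where
  V : Fin T.m → Type u
  E : Fin T.m → Type u
  vt : ∀ i, V i → T.B i
  ed : ∀ i, E i → T.B i
  s : ∀ i, E i → V i
  t : ∀ i, E i → V i
  sle : ∀ i e, vt i (s i e) ≤ ed i e
  tle : ∀ i e, vt i (t i e) ≤ ed i e
  root : ∀ i, T.B i → V i
  root_le : ∀ i c, vt i (root i c) ≤ c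
  pth : ∀ i, T.B i → V i → (E i →₀ ℤ)
  pth_le : ∀ i c v, vt i v ≤ c → ∀ e, pth i c v e ≠ 0 → ed i e ≤ c
  bd_pth : ∀ i c v, vt i v ≤ c → ((pth i c v).sum fun e a =>
    a • (Finsupp.single (s i e) (1 : ℤ) - Finsupp.single (t i e) 1)) =
      Finsupp.single v 1 - Finsupp.single (root i c) 1
  pth_bd : ∀ i c e, ed i e ≤ c → pth i c (s i e) - pth i c (t i e) = Finsupp.single e 1

variable {T} (D : T.Tr)

open Classical in
/-- The box `(c, U')`. -/
noncomputable abbrev Sys.up (j : Fin T.m) (U : T.Box) (c : T.B j) : T.Box := Function.update U j c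

theorem Sys.up_le (S : Finset (Fin T.m)) (j : Fin T.m) (U : T.Box) {c c' : T.B j} (h : c ≤ c') :
    (T.P S).le (T.up j U c) (T.up j U c') := by
  intro i _
  by_cases hi : i = j
  · subst hi
    rw [Sys.up, Sys.up, Function.update_self, Function.update_self]
    exact h
  · rw [Sys.up, Sys.up, Function.update_of_ne hi, Function.update_of_ne hi]

open Classical in
/-- The differential `⊕_e M(e, U') → ⊕_v M(v, U')` of a functor. -/
noncomputable def Sys.Tr.bd {k : Type u} [Ring k] {S : Finset (Fin T.m)} (M : Fn k (T.P S))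
    (j : Fin T.m) (U : T.Box) :
    (DirectSum (D.E j) fun e => M.obj (Opposite.op (Bx.of (T.up j U (D.ed j e))))) →ₗ[k]
      DirectSum (D.V j) fun v => M.obj (Opposite.op (Bx.of (T.up j U (D.vt j v)))) :=
  DirectSum.toModule k (D.E j) _ fun e =>
    DirectSum.lof k (D.V j) (fun v => M.obj (Opposite.op (Bx.of (T.up j U (D.vt j v)))))
        (D.s j e) ∘ₗ
      (M.map (Bx.ofLe (T.up_le S j U (D.sle j e))).op).hom -
    DirectSum.lof k (D.V j) (fun v => M.obj (Opposite.op (Bx.of (T.up j U (D.vt j v)))))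
        (D.t j e) ∘ₗ
      (M.map (Bx.ofLe (T.up_le S j U (D.tle j e))).op).hom

/-- `M` is `T_j`-acyclic. -/
def Sys.Tr.Tac {k : Type u} [Ring k] {S : Finset (Fin T.m)} (M : Fn k (T.P S))
    (j : Fin T.m) : Prop := ∀ U : T.Box, Function.Bijective (D.bd M j U)

end

end Pool.Agent.NegK.NT
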