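import Pool.Agent.Lib.MP_28303a_al.NT.A.Iface

/-! # The elements of the homology of a complex of functors -/

set_option autoImplicit false
set_option linter.unusedSectionVars false
set_option linter.unusedVariables false

namespace Pool.Agent.NegK.NT

universe u

open CategoryTheory Limits

section

variable {k : Type u} [Ring k] {C : Type u} [Category.{u} C]

theorem app_inj {M N : C ⥤ ModuleCat.{u} k} (f : M ⟶ N) [Mono f] (U : C) :
    Function.Injective (f.app U).hom :=
  (ModuleCat.mono_iff_injective (f.app U)).1 inferInstance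

theorem app_surj {M N : C ⥤ ModuleCat.{u} k} (f : M ⟶ N) [Epi f] (U : C) :
    Function.Surjective (f.app U).hom :=
  (ModuleCat.epi_iff_surjective (f.app U)).1 inferInstance

theorem app_exact {S : ShortComplex (C ⥤ ModuleCat.{u} k)} (hS : S.Exact) (U : C)
    (x : S.X₂.obj U) (hx : (S.g.app U).hom x = 0) : ∃ y : S.X₁.obj U, (S.f.app U).hom y = x := by
  have h1 := hS.map ((evaluation C (ModuleCat.{u} k)).obj U)
  exact (ShortComplex.moduleCat_exact_iff _).1 h1 x hx

theorem app_comp_zero {S : ShortComplex (C ⥤ ModuleCat.{u} k)} (U : C) (y : S.X₁.obj U) :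
    (S.g.app U).hom ((S.f.app U).hom y) = 0 := by
  have h1 : S.f.app U ≫ S.g.app U = 0 := by
    rw [← NatTrans.comp_app, S.zero]
    rfl
  exact congrArg (fun f => f.hom y) h1

end

theorem elh : ElhStatement.{u} := by
  intro k _ Γ _ B _ P C n U
  refine ⟨fun h => app_surj (C.homologyπ n) U h, fun x hx => ?_, app_inj (C.iCycles n) U,
    fun z => ?_, fun z => ?_⟩
  · have h1 : (ShortComplex.mk (C.iCycles n) (C.d n (n + 1)) (C.iCycles_d n (n + 1))).Exact :=
      ShortComplex.exact_of_f_is_kernel _ (C.cyclesIsKernel n (n + 1) (by simp))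
    exact app_exact h1 U x hx
  · exact app_comp_zero (S := ShortComplex.mk (C.iCycles n) (C.d n (n + 1))
      (C.iCycles_d n (n + 1))) U z
  · have h1 : (ShortComplex.mk (C.toCycles (n - 1) n) (C.homologyπ n)
        (C.toCycles_comp_homologyπ (n - 1) n)).Exact :=
      ShortComplex.exact_of_g_is_cokernel _ (C.homologyIsCokernel (n - 1) n (by simp))
    have h2 : ∀ y : (C.X (n - 1)).obj U, ((C.iCycles n).app U).hom
        (((C.toCycles (n - 1) n).app U).hom y) = ((C.d (n - 1) n).app U).hom y := fun y => by
      have h3 : (C.toCycles (n - 1) n).app U ≫ (C.iCycles n).app U = (C.d (n - 1) n).app U := by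
        rw [← NatTrans.comp_app, C.toCycles_i]
      exact congrArg (fun f => f.hom y) h3
    constructor
    · intro hz
      obtain ⟨y, hy⟩ := app_exact h1 U z hz
      refine ⟨y, ?_⟩
      rw [← hy]
      exact (h2 y).symm
    · rintro ⟨y, hy⟩
      have h3 : ((C.toCycles (n - 1) n).app U).hom y = z := by
        refine app_inj (C.iCycles n) U ?_
        rw [h2, hy]
      rw [← h3]
      exact app_comp_zero (S := ShortComplex.mk (C.toCycles (n - 1) n) (C.homologyπ n)
        (C.toCycles_comp_homologyπ (n - 1) n)) U y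

/-- The homology functor on a complex. -/
noncomputable def hqI (k : Type u) [Ring k] {Γ : Type u} [Group Γ] {B : Type u} [MulAction Γ B]
    (P : Pre Γ B) (n : ℤ) : HomotopyCategory.quotient (Loc k P) (ComplexShape.up ℤ) ⋙ hq k P n ≅
      Loc.ev.mapHomologicalComplex (ComplexShape.up ℤ) ⋙
        HomologicalComplex.homologyFunctor (Fn k P) (ComplexShape.up ℤ) n :=
  Functor.isoWhiskerLeft (Loc.ev.mapHomologicalComplex (ComplexShape.up ℤ))
    (HomotopyCategory.homologyFunctorFactors (Fn k P) (ComplexShape.up ℤ) n)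

end Pool.Agent.NegK.NT
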