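import Pool.Agent.Lib.MP_28303a_al.NT.A.Elh
import Pool.Agent.Lib.MP_28303a_al.NT.Lab

/-! # The homology of objects of `P^J(k[t, t⁻¹])` extends to `k[t]` -/

set_option autoImplicit false
set_option linter.unusedSectionVars false
set_option linter.unusedVariables false

namespace Pool.Agent.NegK.NT

universe u

open CategoryTheory Limits Pretriangulated

/-- Good classes are closed under images. -/
theorem RegCls.image {k : Type u} [Ring k] {Γ : Type u} [Group Γ] {B : Type u} [MulAction Γ B]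
    {P : Pre Γ B} {AA : Fn k P → Prop} (hA : RegCls AA) {M N : Fn k P} (f : M ⟶ N) (hM : AA M)
    (hN : AA N) : AA (image f) := by
  have h1 : AA (cokernel f) := hA.coker M N f hM hN
  have h2 : AA (kernel (cokernel.π f)) := hA.ker _ _ _ hN h1
  exact hA.iso _ _ ⟨Abelian.imageIsoImage f⟩ h2

theorem hq_comp {k : Type u} [Ring k] {Γ : Type u} [Group Γ] {B : Type u} [MulAction Γ B]
    {P : Pre Γ B} {X Y Z : KK k P} (f : X ⟶ Y) (g : Y ⟶ Z) (n : ℤ) (U : (Bx P)ᵒᵖ)
    (y : ((hq k P n).obj X).obj U) : (((hq k P n).map (f ≫ g)).app U).hom y =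
      (((hq k P n).map g).app U).hom ((((hq k P n).map f).app U).hom y) := by
  rw [Functor.map_comp]
  rfl

/-- The action of `t ^ m` followed by a map. -/
theorem hq_tn (hZh : ZhStatement.{u}) {k : Type u} [Ring k] {Γ : Type u} [Group Γ] {B : Type u}
    [MulAction Γ B] {P : Pre Γ B} {X Y : KK (LaurentPolynomial k) P} (g : X ⟶ Y) (m n : ℤ)
    (U : (Bx P)ᵒᵖ) (y : ((hq (LaurentPolynomial k) P n).obj X).obj U) :
    (((hq (LaurentPolynomial k) P n).map ((tn m).app X ≫ g)).app U).hom y =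
      (LaurentPolynomial.T m : LaurentPolynomial k) •
        (((hq (LaurentPolynomial k) P n).map g).app U).hom y := by
  have h1 := hZh (LaurentPolynomial k) Γ B P (LaurentPolynomial.T m) (tcen m) n X U y
  have h2 := hq_comp ((tn m).app X) g n U y
  refine h2.trans ?_
  have h3 := congrArg (fun w => (((hq (LaurentPolynomial k) P n).map g).app U).hom w) h1
  refine h3.trans ?_
  exact map_smul _ _ _

theorem extab (hHaa : HaaStatement.{u}) (hTac : TacStatement.{u}) (hIs : IslocStatement.{u})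
    (hZh : ZhStatement.{u}) (hIm : ImlocStatement.{u}) (hTi : TacimStatement.{u})
    (hDen : DenStatement.{u}) (Γ : Type u) [Group Γ] (T : Sys Γ) (D : T.Tr)
    (S J : Finset (Fin T.m)) (hJ : J ⊆ S) (hRet : T.RET) (k : Type u) [Ring k]
    (AA : Fn (Polynomial k) (T.P S) → Prop) (hA : RegCls AA)
    (X : KK (LaurentPolynomial k) (T.P S)) (hX : T.PJ S J (LaurentPolynomial k) X) (n : ℤ) :
    ∃ (N : Fn (Polynomial k) (T.P S))
      (f : N ⟶ (rsF k (T.P S)).obj ((hq (LaurentPolynomial k) (T.P S) n).obj X)),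
      AA N ∧ (∀ j ∈ J, D.Tac N j) ∧ IsLoc f := by
  obtain ⟨Z, hZ, ⟨ρ⟩⟩ := hRet S J hJ k X hX
  obtain ⟨m, ψ, hψ⟩ := hDen k Γ T.Box (T.P S) Z Z hZ.per (ρ.r ≫ ρ.i)
  obtain ⟨θ, hθ⟩ := hIs k Γ T.Box (T.P S) n
  let H := hq (LaurentPolynomial k) (T.P S) n
  let ρ' : Retract (H.obj X) (H.obj ((loc k (T.P S)).obj Z)) := ρ.map H
  have hN : AA ((hq (Polynomial k) (T.P S) n).obj Z) := hHaa _ Γ T.Box (T.P S) AA hA Z hZ.per n
  have hac : ∀ j ∈ J, D.Tac ((hq (Polynomial k) (T.P S) n).obj Z) j := fun j hj =>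
    (hTac Γ T D S j (Polynomial k) Z (hJ hj) hZ.per).1 (hZ.ac j hj) n
  have hψ' : (loc k (T.P S)).map ψ =
      (tn (m : ℤ)).app ((loc k (T.P S)).obj Z) ≫ ρ.r ≫ ρ.i := hψ
  have hcond : ∀ (U : (Bx (T.P S))ᵒᵖ) (x : ((hq (Polynomial k) (T.P S) n).obj Z).obj U),
      (((θ.app Z).app U).hom ((((hq (Polynomial k) (T.P S) n).map ψ).app U).hom x) :
        (H.obj ((loc k (T.P S)).obj Z)).obj U) =
      (LaurentPolynomial.T (m : ℤ) : LaurentPolynomial k) •
        (((ρ'.r ≫ ρ'.i).app U).hom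
          (((θ.app Z).app U).hom x : (H.obj ((loc k (T.P S)).obj Z)).obj U) :
          (H.obj ((loc k (T.P S)).obj Z)).obj U) := by
    intro U x
    have h1 := congrArg (fun f => ModuleCat.Hom.hom (NatTrans.app f U) x) (θ.naturality ψ)
    have h2 : ((H.map ((loc k (T.P S)).map ψ)).app U).hom
        (((θ.app Z).app U).hom x : (H.obj ((loc k (T.P S)).obj Z)).obj U) =
        ((H.map ((tn (m : ℤ)).app ((loc k (T.P S)).obj Z) ≫ ρ.r ≫ ρ.i)).app U).hom
        (((θ.app Z).app U).hom x : (H.obj ((loc k (T.P S)).obj Z)).obj U) :=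
      congrArg (fun f => ModuleCat.Hom.hom (NatTrans.app (H.map f) U)
        (((θ.app Z).app U).hom x : (H.obj ((loc k (T.P S)).obj Z)).obj U)) hψ'
    have h3 := hq_tn hZh (ρ.r ≫ ρ.i) (m : ℤ) n U
      (((θ.app Z).app U).hom x : (H.obj ((loc k (T.P S)).obj Z)).obj U)
    have h4 : ((H.map (ρ.r ≫ ρ.i)).app U).hom
        (((θ.app Z).app U).hom x : (H.obj ((loc k (T.P S)).obj Z)).obj U) =
        ((ρ'.r ≫ ρ'.i).app U).hom
          (((θ.app Z).app U).hom x : (H.obj ((loc k (T.P S)).obj Z)).obj U) :=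
      hq_comp ρ.r ρ.i n U _
    exact h1.trans (h2.trans (h3.trans (congrArg
      (fun w => (LaurentPolynomial.T (m : ℤ) : LaurentPolynomial k) • w) h4)))
  obtain ⟨f, hf⟩ := hIm k Γ T.Box (T.P S) _ _ _ (θ.app Z) ρ'
    ((hq (Polynomial k) (T.P S) n).map ψ) m (hθ Z) hcond
  exact ⟨image ((hq (Polynomial k) (T.P S) n).map ψ), f, hA.image _ hN hN,
    fun j hj => (hTi Γ T D S j (Polynomial k)).1 _ _ _ (hac j hj) (hac j hj), hf⟩

end Pool.Agent.NegK.NT
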