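import Pool.Agent.Lib.MP_28303a_al.NT.A.Extab

/-! # Resolutions of functors which extend; the base case -/

set_option autoImplicit false
set_option linter.unusedSectionVars false
set_option linter.unusedVariables false

namespace Pool.Agent.NegK.NT

universe u

open CategoryTheory Limits Pretriangulated

/-- Localizations of perfect objects are perfect. -/
def PerlStatement : Prop :=
  ∀ (k : Type u) [Ring k] (Γ : Type u) [Group Γ] (B : Type u) [MulAction Γ B] (P : Pre Γ B)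
    (X : KK (Polynomial k) P), Per X → Per ((loc k P).obj X)

theorem isIso_of_zero {C : Type*} [Category* C] {X Y : C} (f : X ⟶ Y) (hX : IsZero X)
    (hY : IsZero Y) : IsIso f := by
  have : f = (hX.iso hY).hom := hX.eq_of_src _ _
  rw [this]
  infer_instance

theorem extr (hRes : ResnStatement.{u}) (hTac : TacStatement.{u}) (hUni : UnilocStatement.{u})
    (hTop : TopStatement.{u}) (hIso : IsoStatement.{u}) (hIs : IslocStatement.{u})
    (hTi : TacimStatement.{u}) (hPl : PerlStatement.{u}) : ExtrStatement.{u} := by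
  intro Γ _ T D S J hJ k _ AA hA n R N f hR hR0 hN hac hf
  obtain ⟨Y, hY, ⟨e⟩, h0⟩ := hRes (Polynomial k) Γ T.Box (T.P S) AA hA n N hN
  have hPY : T.PJ S J (Polynomial k) Y := by
    refine ⟨hY, fun j hj => (hTac Γ T D S j (Polynomial k) Y (hJ hj) hY).2 fun m => ?_⟩
    by_cases hm : m = n
    · subst hm
      exact (hTi Γ T D S j (Polynomial k)).2.1 _ _ ⟨e.symm⟩ (hac j hj)
    · exact (hTi Γ T D S j (Polynomial k)).2.2 _ (h0 m hm)
  have hlY : Per ((loc k (T.P S)).obj Y) := hPl k Γ T.Box (T.P S) Y hY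
  have hz : ∀ m, m ≠ n → IsZero ((hq (LaurentPolynomial k) (T.P S) m).obj
      ((loc k (T.P S)).obj Y)) := by
    intro m hm
    obtain ⟨θ, hθ⟩ := hIs k Γ T.Box (T.P S) m
    exact (hUni k Γ T.Box (T.P S)).2.1 _ _ (θ.app Y) (hθ Y) (h0 m hm)
  obtain ⟨θ, hθ⟩ := hIs k Γ T.Box (T.P S) n
  have h1 := (hUni k Γ T.Box (T.P S)).2.2 _ _ _ _ (θ.app Y) (hθ Y) e.symm
    (Iso.refl ((hq (LaurentPolynomial k) (T.P S) n).obj ((loc k (T.P S)).obj Y)))
  obtain ⟨φ⟩ := (hUni k Γ T.Box (T.P S)).1 _ _ _ _ f h1 hf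
  obtain ⟨g, hg⟩ := hTop (LaurentPolynomial k) Γ T.Box (T.P S) ((loc k (T.P S)).obj Y) R n hlY hR
    (fun m hm => hz m (ne_of_gt hm)) hR0 φ.hom
  have hgi : IsIso g := by
    refine hIso (LaurentPolynomial k) Γ T.Box (T.P S) _ _ g hlY hR fun m => ?_
    by_cases hm : m = n
    · subst hm
      rw [hg]
      infer_instance
    · exact isIso_of_zero _ (hz m hm) (hR0 m hm)
  exact ⟨Y, hPY, ⟨asIso g⟩⟩

/-- The base case. -/
theorem base (hHaa : HaaStatement.{u}) (hTac : TacStatement.{u}) (hIs : IslocStatement.{u})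
    (hZh : ZhStatement.{u}) (hIm : ImlocStatement.{u}) (hTi : TacimStatement.{u})
    (hDen : DenStatement.{u}) (hRes : ResnStatement.{u}) (hUni : UnilocStatement.{u})
    (hTop : TopStatement.{u}) (hIso : IsoStatement.{u}) (hPl : PerlStatement.{u})
    (hDev : DevStatement.{u}) (hCon : ConexStatement.{u}) (hReg : RegStatement.{u})
    (hP : ∀ (k : Type u) [Ring k], RegularRing k → RegularRing (Polynomial k))
    (hL : ∀ (k : Type u) [Ring k], RegularRing k → RegularRing (LaurentPolynomial k))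
    (hPer0 : ∀ (k : Type u) [Ring k] (Γ : Type u) [Group Γ] (T : Sys Γ)
      (S J : Finset (Fin T.m)) (X : KK k (T.P S)), IsZero X → T.PJ S J k X)
    (Γ : Type u) [Group Γ] (T : Sys Γ) (D : T.Tr) (hF : T.Fin') (hRet : T.RET) : T.BASE := by
  intro J k _ hk X hX
  obtain ⟨AA, hA⟩ := hReg Γ T hF (Polynomial k) (hP k hk)
  obtain ⟨AA', hA'⟩ := hReg Γ T hF (LaurentPolynomial k) (hL k hk)
  have hJ : J ⊆ Finset.univ := Finset.subset_univ J
  refine hDev (LaurentPolynomial k) Γ T.Box (T.P Finset.univ) AA' hA'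
    (fun X => ∃ Y : KK (Polynomial k) (T.P Finset.univ), T.PJ Finset.univ J (Polynomial k) Y ∧
      Nonempty ((loc k (T.P Finset.univ)).obj Y ≅ X)) ?_ ?_ X hX.per ?_
  · intro Z hZ
    obtain ⟨Z0, h1⟩ := (inferInstance : HasZeroObject (KK (Polynomial k) (T.P Finset.univ))).zero
    exact ⟨_, hPer0 (Polynomial k) Γ T Finset.univ J _ h1,
      ⟨((loc k (T.P Finset.univ)).map_isZero h1).iso hZ⟩⟩
  · intro Δ hΔ h1 h3
    exact hCon Γ T Finset.univ J k Δ hΔ h1 h3
  · intro n R hR hRX hR0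
    obtain ⟨N, f, hN, hac, hf⟩ := extab hHaa hTac hIs hZh hIm hTi hDen Γ T D Finset.univ J hJ hRet k
      AA hA X hX n
    obtain ⟨e⟩ := hRX
    have h1 := (hUni k Γ T.Box (T.P Finset.univ)).2.2 _ _ _ _ f hf (Iso.refl N) e.symm
    exact extr hRes hTac hUni hTop hIso hIs hTi hPl Γ T D Finset.univ J hJ k AA hA n R N _ hR hR0 hN
      hac h1

end Pool.Agent.NegK.NT
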