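import Pool.Agent.Lib.MP_28303a_al.NT.A.Elh

/-! # The homology class of a cycle of a located complex -/

set_option autoImplicit false
set_option linter.unusedSectionVars false
set_option linter.unusedVariables false

namespace Pool.Agent.NegK.NT

universe u

open CategoryTheory Limits

section

variable {k : Type u} [Ring k] {Γ : Type u} [Group Γ] {B : Type u} [MulAction Γ B] {P : Pre Γ B}

/-- The complex of functors of a located complex. -/
noncomputable abbrev evC (E : CochainComplex (Loc k P) ℤ) : CochainComplex (Fn k P) ℤ :=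
  (Loc.ev.mapHomologicalComplex (ComplexShape.up ℤ)).obj E

/-- The cycles on `U`. -/
noncomputable def cy (E : CochainComplex (Loc k P) ℤ) (n : ℤ) (U : (Bx P)ᵒᵖ) :
    Submodule k ((E.X n).evS U.unop.pt) where
  carrier := {x | Loc.lin (E.d n (n + 1)) x.1 = 0}
  zero_mem' := map_zero _
  add_mem' := by
    intro x y hx hy
    change Loc.lin (E.d n (n + 1)) (x.1 + y.1) = 0
    rw [map_add, hx, hy, add_zero]
  smul_mem' := by
    intro c x hx
    change Loc.lin (E.d n (n + 1)) (c • x.1) = 0
    rw [Loc.lin_smul, hx, smul_zero]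

theorem mem_cy (E : CochainComplex (Loc k P) ℤ) (n : ℤ) (U : (Bx P)ᵒᵖ)
    (x : (E.X n).evS U.unop.pt) : x ∈ cy E n U ↔ Loc.lin (E.d n (n + 1)) x.1 = 0 := Iff.rfl

theorem exists_cyc (E : CochainComplex (Loc k P) ℤ) (n : ℤ) (U : (Bx P)ᵒᵖ) (x : cy E n U) :
    ∃ z : ((evC E).cycles n).obj U, (((evC E).iCycles n).app U).hom z = x.1 :=
  (elh k Γ B P (evC E) n U).2.1 x.1 (Subtype.ext x.2)

/-- The cycle as an element of the functor of cycles. -/
noncomputable def lc (E : CochainComplex (Loc k P) ℤ) (n : ℤ) (U : (Bx P)ᵒᵖ) :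
    cy E n U →ₗ[k] ((evC E).cycles n).obj U where
  toFun x := (exists_cyc E n U x).choose
  map_add' x y := by
    refine (elh k Γ B P (evC E) n U).2.2.1 ?_
    rw [map_add, (exists_cyc E n U (x + y)).choose_spec, (exists_cyc E n U x).choose_spec,
      (exists_cyc E n U y).choose_spec]
    rfl
  map_smul' c x := by
    refine (elh k Γ B P (evC E) n U).2.2.1 ?_
    rw [RingHom.id_apply, map_smul, (exists_cyc E n U (c • x)).choose_spec,
      (exists_cyc E n U x).choose_spec]
    rfl

theorem i_lc (E : CochainComplex (Loc k P) ℤ) (n : ℤ) (U : (Bx P)ᵒᵖ) (x : cy E n U) :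
    (((evC E).iCycles n).app U).hom (lc E n U x) = x.1 := (exists_cyc E n U x).choose_spec

/-- The homology class of a cycle. -/
noncomputable def hc (E : CochainComplex (Loc k P) ℤ) (n : ℤ) (U : (Bx P)ᵒᵖ) :
    cy E n U →ₗ[k] ((hq k P n).obj (qo E)).obj U :=
  (((hqI k P n).inv.app E).app U).hom ∘ₗ (((evC E).homologyπ n).app U).hom ∘ₗ lc E n U

theorem hqI_inv_bij (E : CochainComplex (Loc k P) ℤ) (n : ℤ) (U : (Bx P)ᵒᵖ) :
    Function.Bijective (((hqI k P n).inv.app E).app U).hom :=
  ConcreteCategory.bijective_of_isIso (((hqI k P n).inv.app E).app U)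

/-- Every homology class is the class of a cycle. -/
theorem hc_surj (E : CochainComplex (Loc k P) ℤ) (n : ℤ) (U : (Bx P)ᵒᵖ) :
    Function.Surjective (hc E n U) := by
  intro h
  obtain ⟨h', rfl⟩ := (hqI_inv_bij E n U).2 h
  obtain ⟨z, rfl⟩ := (elh k Γ B P (evC E) n U).1 h'
  have h1 := (elh k Γ B P (evC E) n U).2.2.2.1 z
  have h0 : Loc.lin (E.d n (n + 1))
      ((((evC E).iCycles n).app U).hom z : (E.X n).evS U.unop.pt).1 = 0 :=
    congrArg Subtype.val h1
  refine ⟨⟨(((evC E).iCycles n).app U).hom z, h0⟩, ?_⟩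
  have h2 : lc E n U ⟨(((evC E).iCycles n).app U).hom z, h0⟩ = z :=
    (elh k Γ B P (evC E) n U).2.2.1 (i_lc E n U _)
  change (((hqI k P n).inv.app E).app U).hom ((((evC E).homologyπ n).app U).hom (lc E n U _)) = _
  rw [h2]

/-- The class of a cycle is zero if and only if it is a boundary. -/
theorem hc_zero (E : CochainComplex (Loc k P) ℤ) (n : ℤ) (U : (Bx P)ᵒᵖ) (x : cy E n U) :
    hc E n U x = 0 ↔ ∃ y ∈ (E.X (n - 1)).evS U.unop.pt, Loc.lin (E.d (n - 1) n) y = x.1.1 := by
  have h1 : hc E n U x = 0 ↔ (((evC E).homologyπ n).app U).hom (lc E n U x) = 0 := by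
    constructor
    · intro h
      exact (hqI_inv_bij E n U).1 (h.trans (map_zero _).symm)
    · intro h
      change (((hqI k P n).inv.app E).app U).hom
        ((((evC E).homologyπ n).app U).hom (lc E n U x)) = 0
      rw [h]
      exact map_zero _
  rw [h1, (elh k Γ B P (evC E) n U).2.2.2.2, i_lc]
  constructor
  · rintro ⟨y, hy⟩
    exact ⟨y.1, y.2, congrArg Subtype.val hy⟩
  · rintro ⟨y, hy, h⟩
    exact ⟨⟨y, hy⟩, Subtype.ext h⟩

/-- Naturality in the complex. -/
theorem hc_map {E E' : CochainComplex (Loc k P) ℤ} (f : E ⟶ E') (n : ℤ) (U : (Bx P)ᵒᵖ)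
    (x : cy E n U) (x' : cy E' n U) (h : x'.1.1 = Loc.lin (f.f n) x.1.1) :
    (((hq k P n).map ((HomotopyCategory.quotient (Loc k P) (ComplexShape.up ℤ)).map f)).app U).hom
      (hc E n U x) = hc E' n U x' := by
  have h1 := (hqI k P n).inv.naturality f
  have h2 : ((hqI k P n).inv.app E).app U ≫ ((hq k P n).map
      ((HomotopyCategory.quotient (Loc k P) (ComplexShape.up ℤ)).map f)).app U =
        (HomologicalComplex.homologyMap
          ((Loc.ev.mapHomologicalComplex (ComplexShape.up ℤ)).map f) n).app U ≫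
          ((hqI k P n).inv.app E').app U := by
    have := congrArg (fun g => NatTrans.app g U) h1
    exact this.symm
  have h3 := HomologicalComplex.homologyπ_naturality
    ((Loc.ev.mapHomologicalComplex (ComplexShape.up ℤ)).map f) n
  have h4 := HomologicalComplex.cyclesMap_i
    ((Loc.ev.mapHomologicalComplex (ComplexShape.up ℤ)).map f) n
  have h5 : ((HomologicalComplex.cyclesMap
      ((Loc.ev.mapHomologicalComplex (ComplexShape.up ℤ)).map f) n).app U).hom (lc E n U x) =
      lc E' n U x' := by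
    refine (elh k Γ B P (evC E') n U).2.2.1 ?_
    have h6 := congrArg (fun g => ModuleCat.Hom.hom (NatTrans.app g U) (lc E n U x)) h4
    refine Eq.trans h6 ?_
    rw [i_lc]
    refine Subtype.ext ?_
    rw [h]
    change Loc.lin (f.f n) ((((evC E).iCycles n).app U).hom (lc E n U x) :
      (E.X n).evS U.unop.pt).1 = _
    rw [i_lc]
  have h7 := congrArg (fun g => ModuleCat.Hom.hom g
    ((((evC E).homologyπ n).app U).hom (lc E n U x))) h2
  refine Eq.trans h7 ?_
  have h8 := congrArg (fun g => ModuleCat.Hom.hom (NatTrans.app g U) (lc E n U x)) h3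
  change (((hqI k P n).inv.app E').app U).hom (((HomologicalComplex.homologyMap
    ((Loc.ev.mapHomologicalComplex (ComplexShape.up ℤ)).map f) n).app U).hom
      ((((evC E).homologyπ n).app U).hom (lc E n U x))) = _
  change _ = (((hqI k P n).inv.app E').app U).hom
    ((((evC E').homologyπ n).app U).hom (lc E' n U x'))
  congr 1
  rw [← h5]
  exact h8

/-- Naturality in the box. -/
theorem hc_res (E : CochainComplex (Loc k P) ℤ) (n : ℤ) {U V : (Bx P)ᵒᵖ} (g : U ⟶ V)
    (x : cy E n U) (x' : cy E n V)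
    (h : x'.1.1 = (MonoidAlgebra.single (Bx.el g.unop) (1 : k)) • x.1.1) :
    (((hq k P n).obj (qo E)).map g).hom (hc E n U x) = hc E n V x' := by
  have h1 := ((hqI k P n).inv.app E).naturality g
  have h2 := ((evC E).homologyπ n).naturality g
  have h3 := ((evC E).iCycles n).naturality g
  have h5 : (((evC E).cycles n).map g).hom (lc E n U x) = lc E n V x' := by
    refine (elh k Γ B P (evC E) n V).2.2.1 ?_
    have h6 := congrArg (fun g => ModuleCat.Hom.hom g (lc E n U x)) h3
    refine Eq.trans h6 ?_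
    rw [i_lc]
    refine Subtype.ext ?_
    rw [h]
    change (MonoidAlgebra.single (Bx.el g.unop) (1 : k)) •
      ((((evC E).iCycles n).app U).hom (lc E n U x) : (E.X n).evS U.unop.pt).1 = _
    rw [i_lc]
  have h7 := congrArg (fun g => ModuleCat.Hom.hom g
    ((((evC E).homologyπ n).app U).hom (lc E n U x))) h1
  refine Eq.trans h7.symm ?_
  have h8 := congrArg (fun g => ModuleCat.Hom.hom g (lc E n U x)) h2
  change (((hqI k P n).inv.app E).app V).hom ((((evC E).homology n).map g).hom
      ((((evC E).homologyπ n).app U).hom (lc E n U x))) = (((hqI k P n).inv.app E).app V).hom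
    ((((evC E).homologyπ n).app V).hom (lc E n V x'))
  congr 1
  rw [← h5]
  exact h8.symm

end

end Pool.Agent.NegK.NT
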