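import Pool.Agent.Lib.MP_28303a_al.NT.A.Defs
import Mathlib.Algebra.Homology.DerivedCategory.KProjective

/-! # The functor side: statements of the modules -/

set_option autoImplicit false
set_option linter.unusedSectionVars false
set_option linter.unusedVariables false

namespace Pool.Agent.NegK.NT

universe u

open CategoryTheory Limits Pretriangulated

/-- ELH. The elements of the homology of a complex of functors. -/
def ElhStatement : Prop :=
  ∀ (k : Type u) [Ring k] (Γ : Type u) [Group Γ] (B : Type u) [MulAction Γ B] (P : Pre Γ B)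
    (C : CochainComplex (Fn k P) ℤ) (n : ℤ) (U : (Bx P)ᵒᵖ),
    (∀ h : (C.homology n).obj U, ∃ z : (C.cycles n).obj U, ((C.homologyπ n).app U).hom z = h) ∧
    (∀ x : (C.X n).obj U, ((C.d n (n + 1)).app U).hom x = 0 →
      ∃ z : (C.cycles n).obj U, ((C.iCycles n).app U).hom z = x) ∧
    Function.Injective ((C.iCycles n).app U).hom ∧
    (∀ z : (C.cycles n).obj U, ((C.d n (n + 1)).app U).hom (((C.iCycles n).app U).hom z) = 0) ∧
    ∀ z : (C.cycles n).obj U, ((C.homologyπ n).app U).hom z = 0 ↔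
      ∃ y : (C.X (n - 1)).obj U, ((C.d (n - 1) n).app U).hom y = ((C.iCycles n).app U).hom z

/-- EVP. `ev` is fully faithful (Yoneda) and has projective values. -/
def EvpStatement : Prop :=
  ∀ (k : Type u) [Ring k] (Γ : Type u) [Group Γ] (B : Type u) [MulAction Γ B] (P : Pre Γ B),
    (Loc.ev (k := k) (P := P)).Full ∧ (Loc.ev (k := k) (P := P)).Faithful ∧
      ∀ A : Loc k P, Projective (Loc.ev.obj A)

/-- CONS. A perfect complex without homology is zero. -/
def ConsStatement : Prop :=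
  ∀ (k : Type u) [Ring k] (Γ : Type u) [Group Γ] (B : Type u) [MulAction Γ B] (P : Pre Γ B)
    (X : KK k P), Per X → (∀ n, IsZero ((hq k P n).obj X)) → IsZero X

/-- TOP. The map to the top homology: if `H^n X = 0` for `n > b` and `R` has only homology in
degree `b`, then every map `H^b X ⟶ H^b R` comes from a map `X ⟶ R`. -/
def TopStatement : Prop :=
  ∀ (k : Type u) [Ring k] (Γ : Type u) [Group Γ] (B : Type u) [MulAction Γ B] (P : Pre Γ B)
    (X R : KK k P) (b : ℤ), Per X → Per R → (∀ n, b < n → IsZero ((hq k P n).obj X)) →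
    (∀ n, n ≠ b → IsZero ((hq k P n).obj R)) →
    ∀ φ : (hq k P b).obj X ⟶ (hq k P b).obj R, ∃ f : X ⟶ R, (hq k P b).map f = φ

/-- PER. Perfect objects are closed under shifts and extensions. -/
def PerStatement : Prop :=
  ∀ (k : Type u) [Ring k] (Γ : Type u) [Group Γ] (B : Type u) [MulAction Γ B] (P : Pre Γ B),
    (∀ (X : KK k P) (n : ℤ), Per X → Per (X⟦n⟧)) ∧
    ∀ T ∈ distTriang (KK k P), Per T.obj₁ → Per T.obj₃ → Per T.obj₂

/-- BDD. The homology of perfect complexes is bounded. -/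
def BddStatement : Prop :=
  ∀ (k : Type u) [Ring k] (Γ : Type u) [Group Γ] (B : Type u) [MulAction Γ B] (P : Pre Γ B)
    (X : KK k P), Per X → ∃ a b : ℤ, ∀ n, (n < a ∨ b < n) → IsZero ((hq k P n).obj X)

/-- HAA. The homology of perfect complexes is good. -/
def HaaStatement : Prop :=
  ∀ (k : Type u) [Ring k] (Γ : Type u) [Group Γ] (B : Type u) [MulAction Γ B] (P : Pre Γ B)
    (AA : Fn k P → Prop), RegCls AA → ∀ X : KK k P, Per X → ∀ n, AA ((hq k P n).obj X)

/-- ISLOC. The homology of `loc X` is the localization of the homology of `X`. -/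
def IslocStatement : Prop :=
  ∀ (k : Type u) [Ring k] (Γ : Type u) [Group Γ] (B : Type u) [MulAction Γ B] (P : Pre Γ B)
    (n : ℤ), ∃ θ : hq (Polynomial k) P n ⟶ loc k P ⋙ hq (LaurentPolynomial k) P n ⋙ rsF k P,
      ∀ X, IsLoc (θ.app X)

/-- ZH. The central element `z` acts on the homology as multiplication by `z`. -/
def ZhStatement : Prop :=
  ∀ (k : Type u) [Ring k] (Γ : Type u) [Group Γ] (B : Type u) [MulAction Γ B] (P : Pre Γ B)
    (z : k) (hz : ∀ x, z * x = x * z) (n : ℤ) (X : KK k P) (U : (Bx P)ᵒᵖ)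
    (y : ((hq k P n).obj X).obj U),
    ((((hq k P n).map ((zz z hz).app X)).app U).hom y : ((hq k P n).obj X).obj U) = z • y

/-- UNILOC. Localizations are unique, and the localization of zero is zero. -/
def UnilocStatement : Prop :=
  ∀ (k : Type u) [Ring k] (Γ : Type u) [Group Γ] (B : Type u) [MulAction Γ B] (P : Pre Γ B),
    (∀ (N : Fn (Polynomial k) P) (M M' : Fn (LaurentPolynomial k) P) (f : N ⟶ (rsF k P).obj M)
      (f' : N ⟶ (rsF k P).obj M'), IsLoc f → IsLoc f' → Nonempty (M ≅ M')) ∧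
    (∀ (N : Fn (Polynomial k) P) (M : Fn (LaurentPolynomial k) P) (f : N ⟶ (rsF k P).obj M),
      IsLoc f → IsZero N → IsZero M) ∧
    (∀ (N N' : Fn (Polynomial k) P) (M M' : Fn (LaurentPolynomial k) P)
      (f : N ⟶ (rsF k P).obj M), IsLoc f → ∀ (e : N' ≅ N) (e' : M ≅ M'),
        IsLoc (e.hom ≫ f ≫ (rsF k P).map e'.hom))

/-- IMLOC. The image of an endomorphism which localizes to `t ^ m` times an idempotent. -/
def ImlocStatement : Prop :=
  ∀ (k : Type u) [Ring k] (Γ : Type u) [Group Γ] (B : Type u) [MulAction Γ B] (P : Pre Γ B)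
    (N : Fn (Polynomial k) P) (M M' : Fn (LaurentPolynomial k) P) (θ : N ⟶ (rsF k P).obj M)
    (ρ : Retract M' M) (h : N ⟶ N) (m : ℕ), IsLoc θ →
    (∀ (U : (Bx P)ᵒᵖ) (x : N.obj U), ((θ.app U).hom ((h.app U).hom x) : M.obj U) =
      (LaurentPolynomial.T (m : ℤ) : LaurentPolynomial k) •
        (((ρ.r ≫ ρ.i).app U).hom ((θ.app U).hom x : M.obj U) : M.obj U)) →
    ∃ f : image h ⟶ (rsF k P).obj M', IsLoc f

/-- TACIM. Images of maps of `T_j`-acyclic functors are `T_j`-acyclic. -/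
def TacimStatement : Prop :=
  ∀ (Γ : Type u) [Group Γ] (T : Sys Γ) (D : T.Tr) (S : Finset (Fin T.m)) (j : Fin T.m)
    (k : Type u) [Ring k],
    (∀ (M N : Fn k (T.P S)) (f : M ⟶ N), D.Tac M j → D.Tac N j → D.Tac (image f) j) ∧
    (∀ (M N : Fn k (T.P S)), Nonempty (M ≅ N) → D.Tac M j → D.Tac N j) ∧
    (∀ (M : Fn k (T.P S)), IsZero M → D.Tac M j)

/-- The sum `⊕_v (ev A)(v, U') → A.F`. -/
noncomputable def Sys.Tr.sm {Γ : Type u} [Group Γ] {T : Sys Γ} (D : T.Tr)
    {S : Finset (Fin T.m)} (j : Fin T.m) {k : Type u} [Ring k] (A : Loc k (T.P S)) (U : T.Box) :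
    (DirectSum (D.V j) fun v =>
      (Loc.ev.obj A).obj (Opposite.op (Bx.of (T.up j U (D.vt j v))))) →ₗ[k] A.F := by
  classical
  exact DirectSum.toModule k (D.V j) _ fun v => (A.evS (T.up j U (D.vt j v))).subtype

/-- TACS. `0 → ⊕_e (ev A)(e, U') → ⊕_v (ev A)(v, U') → (ev L_j A)(U) → 0` is exact. -/
def TacsStatement : Prop :=
  ∀ (Γ : Type u) [Group Γ] (T : Sys Γ) (D : T.Tr) (S : Finset (Fin T.m)) (j : Fin T.m)
    (k : Type u) [Ring k] (A : Loc k (T.P S)) (U : T.Box), j ∈ S →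
    Function.Injective (D.bd (Loc.ev.obj A) j U) ∧
    LinearMap.range (D.bd (Loc.ev.obj A) j U) = LinearMap.ker (D.sm j A U) ∧
    ∀ x : A.F, x ∈ LinearMap.range (D.sm j A U) ↔
      x ∈ Loc.evS (k := k) (P := T.P (S.erase j)) ⟨A.ι, A.loc⟩ U

/-- TAC. `L_j X = 0` if and only if the homology of `X` is `T_j`-acyclic. -/
def TacStatement : Prop :=
  ∀ (Γ : Type u) [Group Γ] (T : Sys Γ) (D : T.Tr) (S : Finset (Fin T.m)) (j : Fin T.m)
    (k : Type u) [Ring k] (X : KK k (T.P S)), j ∈ S → Per X →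
    (IsZero ((T.L k (S.erase_subset j)).obj X) ↔ ∀ n, D.Tac ((hq k (T.P S) n).obj X) j)

/-- ISO. Maps of perfect objects which are isomorphisms in homology. -/
def IsoStatement : Prop :=
  ∀ (k : Type u) [Ring k] (Γ : Type u) [Group Γ] (B : Type u) [MulAction Γ B] (P : Pre Γ B)
    (X Y : KK k P) (f : X ⟶ Y), Per X → Per Y → (∀ n, IsIso ((hq k P n).map f)) → IsIso f

/-- KAR. Idempotents of objects split in the homotopy category. -/
def KarStatement : Prop :=
  ∀ (k : Type u) [Ring k] (Γ : Type u) [Group Γ] (B : Type u) [MulAction Γ B] (P : Pre Γ B)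
    (A : Loc k P) (e : A ⟶ A), e ≫ e = e →
    ∃ (Y : KK k P) (ρ : Retract Y (qo ((CochainComplex.singleFunctor (Loc k P) 0).obj A))),
      ρ.r ≫ ρ.i = (HomotopyCategory.quotient (Loc k P) (ComplexShape.up ℤ)).map
        ((CochainComplex.singleFunctor (Loc k P) 0).map e)

/-- DEV. Devissage. -/
def DevStatement : Prop :=
  ∀ (k : Type u) [Ring k] (Γ : Type u) [Group Γ] (B : Type u) [MulAction Γ B] (P : Pre Γ B)
    (AA : Fn k P → Prop), RegCls AA → ∀ Φ : KK k P → Prop,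
    (∀ X : KK k P, IsZero X → Φ X) →
    (∀ T ∈ distTriang (KK k P), Φ T.obj₁ → Φ T.obj₃ → Φ T.obj₂) →
    ∀ X : KK k P, Per X →
      (∀ (n : ℤ) (R : KK k P), Per R → Nonempty ((hq k P n).obj R ≅ (hq k P n).obj X) →
        (∀ m, m ≠ n → IsZero ((hq k P m).obj R)) → Φ R) → Φ X

/-- DEN. Denominators of morphisms. -/
def DenStatement : Prop :=
  ∀ (k : Type u) [Ring k] (Γ : Type u) [Group Γ] (B : Type u) [MulAction Γ B] (P : Pre Γ B)
    (X Y : KK (Polynomial k) P), Per X →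
    ∀ φ : (loc k P).obj X ⟶ (loc k P).obj Y, ∃ (n : ℕ) (ψ : X ⟶ Y),
      (loc k P).map ψ = (tn (n : ℤ)).app _ ≫ φ

/-- RET. Every object of `P_S^J(k[t, t⁻¹])` is a retract of the localization of an object of
`P_S^J(k[t])`. -/
def Sys.Ret {Γ : Type u} [Group Γ] (T : Sys Γ) : Prop :=
  ∀ (S J : Finset (Fin T.m)) (k : Type u) [Ring k] (X : KK (LaurentPolynomial k) (T.P S)),
    T.PJ S J (LaurentPolynomial k) X → ∃ Z : KK (Polynomial k) (T.P S),
      T.PJ S J (Polynomial k) Z ∧ Nonempty (Retract X ((loc k (T.P S)).obj Z))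

/-- CONEX. Extensions of objects which come from `k[t]` come from `k[t]`. -/
def ConexStatement : Prop :=
  ∀ (Γ : Type u) [Group Γ] (T : Sys Γ) (S J : Finset (Fin T.m)) (k : Type u) [Ring k],
    ∀ Δ ∈ distTriang (KK (LaurentPolynomial k) (T.P S)),
      (∃ Y : KK (Polynomial k) (T.P S), T.PJ S J (Polynomial k) Y ∧
        Nonempty ((loc k (T.P S)).obj Y ≅ Δ.obj₁)) →
      (∃ Y : KK (Polynomial k) (T.P S), T.PJ S J (Polynomial k) Y ∧
        Nonempty ((loc k (T.P S)).obj Y ≅ Δ.obj₃)) →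
      ∃ Y : KK (Polynomial k) (T.P S), T.PJ S J (Polynomial k) Y ∧
        Nonempty ((loc k (T.P S)).obj Y ≅ Δ.obj₂)

/-- EXTAB. The homology of objects of `P^J(k[t, t⁻¹])` extends to `k[t]`. -/
def ExtabStatement : Prop :=
  ∀ (Γ : Type u) [Group Γ] (T : Sys Γ) (D : T.Tr) (S J : Finset (Fin T.m)), J ⊆ S → T.Ret →
    ∀ (k : Type u) [Ring k] (AA : Fn (Polynomial k) (T.P S) → Prop), RegCls AA →
    ∀ X : KK (LaurentPolynomial k) (T.P S), T.PJ S J (LaurentPolynomial k) X → ∀ n : ℤ,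
      ∃ (N : Fn (Polynomial k) (T.P S))
        (f : N ⟶ (rsF k (T.P S)).obj ((hq (LaurentPolynomial k) (T.P S) n).obj X)),
        AA N ∧ (∀ j ∈ J, D.Tac N j) ∧ IsLoc f

/-- EXTR. Resolutions of functors which extend. -/
def ExtrStatement : Prop :=
  ∀ (Γ : Type u) [Group Γ] (T : Sys Γ) (D : T.Tr) (S J : Finset (Fin T.m)), J ⊆ S →
    ∀ (k : Type u) [Ring k] (AA : Fn (Polynomial k) (T.P S) → Prop), RegCls AA →
    ∀ (n : ℤ) (R : KK (LaurentPolynomial k) (T.P S)) (N : Fn (Polynomial k) (T.P S))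
      (f : N ⟶ (rsF k (T.P S)).obj ((hq (LaurentPolynomial k) (T.P S) n).obj R)),
      Per R → (∀ m, m ≠ n → IsZero ((hq (LaurentPolynomial k) (T.P S) m).obj R)) →
      AA N → (∀ j ∈ J, D.Tac N j) → IsLoc f →
      ∃ Y : KK (Polynomial k) (T.P S), T.PJ S J (Polynomial k) Y ∧
        Nonempty ((loc k (T.P S)).obj Y ≅ R)

/-- RESN. Resolutions in every degree. -/
def ResnStatement : Prop :=
  ∀ (k : Type u) [Ring k] (Γ : Type u) [Group Γ] (B : Type u) [MulAction Γ B] (P : Pre Γ B)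
    (AA : Fn k P → Prop), RegCls AA → ∀ (n : ℤ) (M : Fn k P), AA M →
    ∃ R : KK k P, Per R ∧ Nonempty ((hq k P n).obj R ≅ M) ∧
      ∀ m : ℤ, m ≠ n → IsZero ((hq k P m).obj R)

/-! ### Stabilizers -/

/-- The conditions on the stabilizers of boxes and on the finiteness of boxes. -/
structure Sys.Fin' {Γ : Type u} [Group Γ] (T : Sys Γ) : Prop where
  fin : ∀ (i : Fin T.m) (x : T.B i), {y | y ≤ x}.Finite
  stab : ∀ U : T.Box, TW.InRC (MulAction.stabilizer Γ U)

/-- The functor `M` has a finite resolution: it is the homology of a perfect complex. -/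
def Rsl {k : Type u} [Ring k] {Γ : Type u} [Group Γ] {B : Type u} [MulAction Γ B] {P : Pre Γ B}
    (M : Fn k P) : Prop :=
  ∃ R : KK k P, Per R ∧ Nonempty ((hq k P 0).obj R ≅ M) ∧
    ∀ n : ℤ, n ≠ 0 → IsZero ((hq k P n).obj R)

/-- GOOD. The class of functors with finite resolutions. -/
def GoodStatement : Prop :=
  ∀ (k : Type u) [Ring k] (Γ : Type u) [Group Γ] (B : Type u) [MulAction Γ B] (P : Pre Γ B),
    (∀ S : ShortComplex (Fn k P), S.ShortExact → Rsl S.X₂ → Rsl S.X₃ → Rsl S.X₁) ∧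
    (∀ S : ShortComplex (Fn k P), S.ShortExact → Rsl S.X₁ → Rsl S.X₃ → Rsl S.X₂) ∧
    (∀ S : ShortComplex (Fn k P), S.ShortExact → Rsl S.X₁ → Rsl S.X₂ → Rsl S.X₃) ∧
    (∀ M : Fn k P, IsZero M → Rsl M) ∧
    (∀ M N : Fn k P, Nonempty (M ≅ N) → Rsl M → Rsl N) ∧
    (∀ (M : Fn k P) (A : Loc k P), Finite A.ι → Nonempty (Retract M (Loc.ev.obj A)) → Rsl M)

/-- REG. There are good classes of functors. -/
def RegStatement : Prop :=
  ∀ (Γ : Type u) [Group Γ] (T : Sys Γ), T.Fin' → ∀ (k : Type u) [Ring k], RegularRing k →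
    ∃ AA : Fn k (T.P Finset.univ) → Prop, RegCls AA

end Pool.Agent.NegK.NT
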