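import Pool.Agent.Lib.MP_28303a_al.NT.A.Elh

/-! # Images and localizations -/

set_option autoImplicit false
set_option linter.unusedSectionVars false
set_option linter.unusedVariables false

namespace Pool.Agent.NegK.NT

universe u

open CategoryTheory Limits

theorem T_inj {k : Type u} [Ring k] {M : Type u} [AddCommGroup M] [Module (LaurentPolynomial k) M]
    (n : ℤ) {x : M} (h : (LaurentPolynomial.T n : LaurentPolynomial k) • x = 0) : x = 0 := by
  have h1 := congrArg (fun y => (LaurentPolynomial.T (-n) : LaurentPolynomial k) • y) h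
  simp only [smul_smul, smul_zero] at h1
  rwa [← LaurentPolynomial.T_add, neg_add_cancel, LaurentPolynomial.T_zero, one_smul] at h1

theorem imloc : ImlocStatement.{u} := by
  intro k _ Γ _ B _ P N M M' θ ρ h m hθ hcond
  refine ⟨image.ι h ≫ θ ≫ (rsF k P).map ρ.r, fun U => ⟨fun z hz => ?_, fun y => ?_⟩⟩
  · obtain ⟨x, rfl⟩ := app_surj (factorThruImage h) U z
    have h1 : ((image.ι h).app U).hom (((factorThruImage h).app U).hom x) = (h.app U).hom x := by
      have := congrArg (fun f => ModuleCat.Hom.hom (NatTrans.app f U) x) (image.fac h)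
      exact this
    have h2 : ((ρ.r.app U).hom ((θ.app U).hom ((h.app U).hom x) : M.obj U) : M'.obj U) = 0 := by
      refine Eq.trans ?_ hz
      exact congrArg (fun w => ((ρ.r.app U).hom ((θ.app U).hom w : M.obj U) : M'.obj U)) h1.symm
    have h3 : ∀ y : M'.obj U, (ρ.r.app U).hom ((ρ.i.app U).hom y) = y := fun y => by
      have := congrArg (fun f => ModuleCat.Hom.hom (NatTrans.app f U) y) ρ.retract
      exact this
    have h4 : (((ρ.r ≫ ρ.i).app U).hom ((θ.app U).hom x : M.obj U) : M.obj U) =
        (ρ.i.app U).hom ((ρ.r.app U).hom ((θ.app U).hom x : M.obj U)) := rfl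
    have h5 := hcond U x
    rw [h4] at h5
    have h6 : (LaurentPolynomial.T (m : ℤ) : LaurentPolynomial k) •
        ((ρ.r.app U).hom ((θ.app U).hom x : M.obj U) : M'.obj U) = 0 := by
      rw [← h2]
      have h7 := congrArg (fun w : M.obj U => ((ρ.r.app U).hom w : M'.obj U)) h5
      refine Eq.trans ?_ h7.symm
      rw [map_smul, h3]
    have h8 := T_inj (m : ℤ) h6
    have h9 : ((θ.app U).hom ((h.app U).hom x) : M.obj U) = 0 := by
      rw [h5, h8, map_zero, smul_zero]
      rfl
    obtain ⟨n, hn⟩ := (hθ U).1 _ h9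
    refine ⟨n, app_inj (image.ι h) U ?_⟩
    rw [map_smul, map_zero, h1, hn]
  · obtain ⟨n, x, hx⟩ := (hθ U).2 ((ρ.i.app U).hom y)
    have h3 : ∀ y : M'.obj U, (ρ.r.app U).hom ((ρ.i.app U).hom y) = y := fun y => by
      have := congrArg (fun f => ModuleCat.Hom.hom (NatTrans.app f U) y) ρ.retract
      exact this
    refine ⟨m + n, ((factorThruImage h).app U).hom x, ?_⟩
    have h1 : ((image.ι h).app U).hom (((factorThruImage h).app U).hom x) = (h.app U).hom x := by
      have := congrArg (fun f => ModuleCat.Hom.hom (NatTrans.app f U) x) (image.fac h)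
      exact this
    have h2 : (((image.ι h ≫ θ ≫ (rsF k P).map ρ.r).app U).hom
        (((factorThruImage h).app U).hom x) : M'.obj U) =
        ((ρ.r.app U).hom ((θ.app U).hom ((h.app U).hom x) : M.obj U) : M'.obj U) :=
      congrArg (fun w => ((ρ.r.app U).hom ((θ.app U).hom w : M.obj U) : M'.obj U)) h1
    refine h2.trans ?_
    have h4 : (((ρ.r ≫ ρ.i).app U).hom ((θ.app U).hom x : M.obj U) : M.obj U) =
        (ρ.i.app U).hom ((ρ.r.app U).hom ((θ.app U).hom x : M.obj U)) := rfl
    have h5 := hcond U x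
    rw [h4, hx, map_smul, h3, map_smul, smul_smul, ← LaurentPolynomial.T_add] at h5
    refine (congrArg (fun w : M.obj U => ((ρ.r.app U).hom w : M'.obj U)) h5).trans ?_
    change (ρ.r.app U).hom ((LaurentPolynomial.T ((m : ℤ) + (n : ℤ)) : LaurentPolynomial k) •
        ((ρ.i.app U).hom y : M.obj U)) = _
    rw [map_smul, h3, Nat.cast_add]

end Pool.Agent.NegK.NT
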