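import Pool.Agent.Lib.MP_28303a_al.NT.A.Imloc

/-! # Uniqueness of localizations -/

set_option autoImplicit false
set_option linter.unusedSectionVars false
set_option linter.unusedVariables false

namespace Pool.Agent.NegK.NT

universe u

open CategoryTheory Limits

section

variable {k : Type u} [Ring k]

theorem T_cancel {M : Type u} [AddCommGroup M] [Module (LaurentPolynomial k) M] (n : ℤ) {x y : M}
    (h : (LaurentPolynomial.T n : LaurentPolynomial k) • x =
      (LaurentPolynomial.T n : LaurentPolynomial k) • y) : x = y := by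
  rw [← sub_eq_zero]
  refine T_inj (k := k) n ?_
  rw [smul_sub, h, sub_self]

theorem T_T {M : Type u} [AddCommGroup M] [Module (LaurentPolynomial k) M] (m n : ℤ) (x : M) :
    (LaurentPolynomial.T m : LaurentPolynomial k) • (LaurentPolynomial.T n : LaurentPolynomial k) •
      x = (LaurentPolynomial.T (m + n) : LaurentPolynomial k) • x := by
  rw [smul_smul, LaurentPolynomial.T_add]

/-- A linear map over `k[t]` between modules over `k[t, t⁻¹]` is linear over `k[t, t⁻¹]`. -/
theorem lin_of_poly {M M' : Type u} [AddCommGroup M] [Module (LaurentPolynomial k) M]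
    [AddCommGroup M'] [Module (LaurentPolynomial k) M'] (f : M →+ M')
    (h : ∀ (p : Polynomial k) (x : M), f (Polynomial.toLaurent p • x) =
      Polynomial.toLaurent p • f x) (q : LaurentPolynomial k) (x : M) : f (q • x) = q • f x := by
  have h1 : ∀ (n : ℕ) (x : M), f ((LaurentPolynomial.T (n : ℤ) : LaurentPolynomial k) • x) =
      (LaurentPolynomial.T (n : ℤ) : LaurentPolynomial k) • f x := fun n x => by
    rw [← Polynomial.toLaurent_X_pow, h]
  have h2 : ∀ (n : ℤ) (x : M), f ((LaurentPolynomial.T n : LaurentPolynomial k) • x) =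
      (LaurentPolynomial.T n : LaurentPolynomial k) • f x := fun n x => by
    obtain ⟨m, rfl | rfl⟩ := n.eq_nat_or_neg
    · exact h1 m x
    · refine T_cancel (k := k) (m : ℤ) ?_
      rw [← h1, T_T, T_T, add_neg_cancel, LaurentPolynomial.T_zero, one_smul, one_smul]
  induction q using LaurentPolynomial.induction_on' with
  | add p q hp hq => rw [add_smul, map_add, hp, hq, add_smul]
  | C_mul_T n a =>
    rw [mul_smul, ← Polynomial.toLaurent_C, h, h2, mul_smul]

/-- The map induced by localizations on modules. -/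
theorem exists_uniloc {N M M' : Type u} [AddCommGroup N] [Module (Polynomial k) N]
    [AddCommGroup M] [Module (LaurentPolynomial k) M] [AddCommGroup M']
    [Module (LaurentPolynomial k) M'] (f : N →+ M) (f' : N →+ M')
    (hf : ∀ (p : Polynomial k) (x : N), f (p • x) = Polynomial.toLaurent p • f x)
    (hf' : ∀ (p : Polynomial k) (x : N), f' (p • x) = Polynomial.toLaurent p • f' x)
    (h1 : ∀ x : N, f x = 0 → ∃ n : ℕ, (Polynomial.X ^ n : Polynomial k) • x = 0)
    (h2 : ∀ y : M, ∃ (n : ℕ) (x : N), f x =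
      (LaurentPolynomial.T (n : ℤ) : LaurentPolynomial k) • y) :
    ∃ g : M →ₗ[LaurentPolynomial k] M', ∀ x, g (f x) = f' x := by
  have hX : ∀ (n : ℕ) (x : N), f ((Polynomial.X ^ n : Polynomial k) • x) =
      (LaurentPolynomial.T (n : ℤ) : LaurentPolynomial k) • f x := fun n x => by
    rw [hf, Polynomial.toLaurent_X_pow]
  have hX' : ∀ (n : ℕ) (x : N), f' ((Polynomial.X ^ n : Polynomial k) • x) =
      (LaurentPolynomial.T (n : ℤ) : LaurentPolynomial k) • f' x := fun n x => by
    rw [hf', Polynomial.toLaurent_X_pow]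
  have h0 : ∀ x x' : N, f x = f x' → f' x = f' x' := by
    intro x x' h
    obtain ⟨n, hn⟩ := h1 (x - x') (by rw [map_sub, h, sub_self])
    rw [← sub_eq_zero, ← map_sub]
    refine T_inj (k := k) (n : ℤ) ?_
    rw [← hX', hn, map_zero]
  choose n x hx using h2
  obtain ⟨g, hg⟩ : ∃ g : M → M', ∀ (y : M) (m : ℕ) (z : N), f z =
      (LaurentPolynomial.T (m : ℤ) : LaurentPolynomial k) • y →
      (LaurentPolynomial.T (m : ℤ) : LaurentPolynomial k) • g y = f' z := by
    refine ⟨fun y => (LaurentPolynomial.T (-(n y : ℤ)) : LaurentPolynomial k) • f' (x y),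
      fun y m z hz => ?_⟩
    have h3 : f ((Polynomial.X ^ m : Polynomial k) • x y) =
        f ((Polynomial.X ^ (n y) : Polynomial k) • z) := by
      rw [hX, hX, hx, hz, T_T, T_T, add_comm]
    have h4 := h0 _ _ h3
    rw [hX', hX'] at h4
    refine T_cancel (k := k) (n y : ℤ) ?_
    rw [← h4]
    change (LaurentPolynomial.T (n y : ℤ) : LaurentPolynomial k) •
      (LaurentPolynomial.T (m : ℤ) : LaurentPolynomial k) •
        (LaurentPolynomial.T (-(n y : ℤ)) : LaurentPolynomial k) • f' (x y) = _
    rw [T_T, T_T]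
    congr 2
    ring
  have hadd : ∀ y y', g (y + y') = g y + g y' := by
    intro y y'
    refine T_cancel (k := k) ((n y + n y' : ℕ) : ℤ) ?_
    have h3 : (LaurentPolynomial.T (n y : ℤ) : LaurentPolynomial k) • g y = f' (x y) :=
      hg y (n y) (x y) (hx y)
    have h4 : (LaurentPolynomial.T (n y' : ℤ) : LaurentPolynomial k) • g y' = f' (x y') :=
      hg y' (n y') (x y') (hx y')
    have h5 : (LaurentPolynomial.T ((n y + n y' : ℕ) : ℤ) : LaurentPolynomial k) • g (y + y') =
        f' ((Polynomial.X ^ (n y') : Polynomial k) • x y +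
          (Polynomial.X ^ (n y) : Polynomial k) • x y') := by
      refine hg _ _ _ ?_
      rw [map_add, hX, hX, hx, hx, T_T, T_T, smul_add, Nat.cast_add, add_comm (n y : ℤ)]
    rw [h5, map_add, hX', hX', ← h3, ← h4, T_T, T_T, smul_add, Nat.cast_add,
      add_comm (n y' : ℤ)]
  let G : M →+ M' := AddMonoidHom.mk' g hadd
  have hG : ∀ (p : Polynomial k) (y : M), G (Polynomial.toLaurent p • y) =
      Polynomial.toLaurent p • G y := by
    intro p y
    refine T_cancel (k := k) (n y : ℤ) ?_
    have h5 : (LaurentPolynomial.T (n y : ℤ) : LaurentPolynomial k) * Polynomial.toLaurent p =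
        Polynomial.toLaurent p * (LaurentPolynomial.T (n y : ℤ) : LaurentPolynomial k) :=
      (LaurentPolynomial.commute_T _ _).eq
    have h6 : (LaurentPolynomial.T (n y : ℤ) : LaurentPolynomial k) •
        g (Polynomial.toLaurent p • y) = f' (p • x y) := by
      refine hg _ _ _ ?_
      rw [hf, hx, smul_smul, smul_smul, h5]
    change (LaurentPolynomial.T (n y : ℤ) : LaurentPolynomial k) •
      g (Polynomial.toLaurent p • y) = _
    have h8 : (LaurentPolynomial.T (n y : ℤ) : LaurentPolynomial k) • G y = f' (x y) :=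
      hg y (n y) (x y) (hx y)
    rw [h6, hf', ← h8, smul_smul, smul_smul, h5]
  refine ⟨{ G with map_smul' := fun q y => lin_of_poly G hG q y }, fun z => ?_⟩
  have h7 := hg (f z) 0 z (by rw [Nat.cast_zero, LaurentPolynomial.T_zero, one_smul])
  rw [Nat.cast_zero, LaurentPolynomial.T_zero, one_smul] at h7
  exact h7

theorem ext_uniloc {N M M' : Type u} [AddCommGroup N]
    [AddCommGroup M] [Module (LaurentPolynomial k) M] [AddCommGroup M']
    [Module (LaurentPolynomial k) M'] (f : N →+ M)
    (h2 : ∀ y : M, ∃ (n : ℕ) (x : N), f x =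
      (LaurentPolynomial.T (n : ℤ) : LaurentPolynomial k) • y)
    {g g' : M →ₗ[LaurentPolynomial k] M'} (h : ∀ x, g (f x) = g' (f x)) : g = g' := by
  refine LinearMap.ext fun y => ?_
  obtain ⟨n, x, hx⟩ := h2 y
  refine T_cancel (k := k) (n : ℤ) ?_
  rw [← map_smul, ← map_smul, ← hx, h]

end

section

variable {k : Type u} [Ring k] {Γ : Type u} [Group Γ] {B : Type u} [MulAction Γ B] {P : Pre Γ B}

/-- The universal property. -/
theorem exists_lift {N : Fn (Polynomial k) P} {M M' : Fn (LaurentPolynomial k) P}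
    (f : N ⟶ (rsF k P).obj M) (f' : N ⟶ (rsF k P).obj M') (hf : IsLoc f) :
    ∃ g : M ⟶ M', f ≫ (rsF k P).map g = f' := by
  have h1 : ∀ U : (Bx P)ᵒᵖ, ∃ g : M.obj U →ₗ[LaurentPolynomial k] M'.obj U,
      ∀ x : N.obj U, g ((f.app U).hom x : M.obj U) = ((f'.app U).hom x : M'.obj U) := fun U =>
    exists_uniloc (N := N.obj U) (M := M.obj U) (M' := M'.obj U)
      (f.app U).hom.toAddMonoidHom (f'.app U).hom.toAddMonoidHom
      (fun p x => map_smul (f.app U).hom p x) (fun p x => map_smul (f'.app U).hom p x)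
      (hf U).1 (hf U).2
  choose g hg using h1
  refine ⟨{ app := fun U => ModuleCat.ofHom (g U), naturality := fun U V a => ?_ }, ?_⟩
  · refine ModuleCat.hom_ext (ext_uniloc (N := N.obj U) (M := M.obj U) (M' := M'.obj V)
      (f.app U).hom.toAddMonoidHom (hf U).2 fun x => ?_)
    have h2 := congrArg (fun b => ModuleCat.Hom.hom b x) (f.naturality a)
    have h3 := congrArg (fun b => ModuleCat.Hom.hom b x) (f'.naturality a)
    have h4 : g V ((M.map a).hom ((f.app U).hom x : M.obj U)) =
        g V ((f.app V).hom ((N.map a).hom x) : M.obj V) := congrArg (g V) h2.symm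
    exact h4.trans ((hg V _).trans (h3.trans (congrArg (M'.map a).hom (hg U x).symm)))
  · refine NatTrans.ext (funext fun U => ModuleCat.hom_ext (LinearMap.ext fun x => ?_))
    exact hg U x

theorem ext_lift {N : Fn (Polynomial k) P} {M M' : Fn (LaurentPolynomial k) P}
    (f : N ⟶ (rsF k P).obj M) (hf : IsLoc f) {g g' : M ⟶ M'}
    (h : f ≫ (rsF k P).map g = f ≫ (rsF k P).map g') : g = g' := by
  refine NatTrans.ext (funext fun U => ModuleCat.hom_ext
    (ext_uniloc (N := N.obj U) (M := M.obj U) (M' := M'.obj U)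
      (f.app U).hom.toAddMonoidHom (hf U).2 fun x => ?_))
  exact congrArg (fun b => ModuleCat.Hom.hom (NatTrans.app b U) x) h

end

theorem uniloc : UnilocStatement.{u} := by
  intro k _ Γ _ B _ P
  refine ⟨fun N M M' f f' hf hf' => ?_, fun N M f hf hN => ?_, fun N N' M M' f hf e e' => ?_⟩
  · obtain ⟨g, hg⟩ := exists_lift f f' hf
    obtain ⟨g', hg'⟩ := exists_lift f' f hf'
    refine ⟨⟨g, g', ?_, ?_⟩⟩
    · refine ext_lift f hf ?_
      rw [Functor.map_comp, ← Category.assoc, hg, hg', CategoryTheory.Functor.map_id, Category.comp_id]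
    · refine ext_lift f' hf' ?_
      rw [Functor.map_comp, ← Category.assoc, hg', hg, CategoryTheory.Functor.map_id, Category.comp_id]
  · rw [IsZero.iff_id_eq_zero]
    refine ext_lift f hf ?_
    exact hN.eq_of_src _ _
  · intro U
    refine ⟨fun x hx => ?_, fun y => ?_⟩
    · have h1 : ((e'.hom.app U).hom ((f.app U).hom ((e.hom.app U).hom x) : M.obj U) : M'.obj U) =
          0 := hx
      have h2 : ((f.app U).hom ((e.hom.app U).hom x) : M.obj U) = 0 :=
        (ConcreteCategory.bijective_of_isIso (e'.hom.app U)).1 (h1.trans (map_zero _).symm)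
      obtain ⟨n, hn⟩ := (hf U).1 _ h2
      refine ⟨n, (ConcreteCategory.bijective_of_isIso (e.hom.app U)).1 ?_⟩
      exact ((map_smul (e.hom.app U).hom _ x).trans hn).trans (map_zero _).symm
    · obtain ⟨y', rfl⟩ := (ConcreteCategory.bijective_of_isIso (e'.hom.app U)).2 y
      obtain ⟨n, x, hx⟩ := (hf U).2 y'
      obtain ⟨x', rfl⟩ := (ConcreteCategory.bijective_of_isIso (e.hom.app U)).2 x
      refine ⟨n, x', ?_⟩
      exact (congrArg (fun w : M.obj U => ((e'.hom.app U).hom w : M'.obj U)) hx).trans
        (map_smul (e'.hom.app U).hom _ y')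

end Pool.Agent.NegK.NT
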